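import Mathlib

set_option autoImplicit false

namespace Pool.Agent.V1121.EM

variable {W : Type*} [Group W]

/-- An involution system: `S` is a finite generating set of involutions of the group `W`. -/
structure IsInvSys (S : Set W) : Prop where
  finite : S.Finite
  invol : ∀ s ∈ S, s ≠ 1 ∧ s * s = 1
  gen : Subgroup.closure S = ⊤

/-- The word length with respect to `S`. -/
noncomputable def wlen (S : Set W) (w : W) : ℕ :=
  sInf {n | ∃ l : List W, (∀ s ∈ l, s ∈ S) ∧ l.prod = w ∧ l.length = n}

/-- A reduced word for `w`: a word with letters in `S`, product `w` and length `ℓ(w)`. -/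
def IsRed (S : Set W) (l : List W) (w : W) : Prop :=
  (∀ s ∈ l, s ∈ S) ∧ l.prod = w ∧ l.length = wlen S w

/-- The right weak order: some reduced word for `u` is an initial segment of some reduced
word for `v`. -/
def WLe (S : Set W) (u v : W) : Prop := ∃ p q : List W, IsRed S p u ∧ IsRed S (p ++ q) v

/-- `m` is the greatest lower bound of `X` in the right weak order. -/
def IsMeet (S : Set W) (X : Set W) (m : W) : Prop :=
  (∀ x ∈ X, WLe S m x) ∧ ∀ y, (∀ x ∈ X, WLe S y x) → WLe S y m

/-- `j` is the least upper bound of `X` in the right weak order. -/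
def IsJoin (S : Set W) (X : Set W) (j : W) : Prop :=
  (∀ x ∈ X, WLe S x j) ∧ ∀ y, (∀ x ∈ X, WLe S x y) → WLe S j y

/-- Even meet involution systems: there is a sign character, and every nonempty set has a
greatest lower bound in the right weak order. -/
structure IsEMIS (S : Set W) : Prop where
  sys : IsInvSys S
  even : ∃ ε : W →* ℤˣ, ∀ s ∈ S, ε s = -1
  meet : ∀ X : Set W, X.Nonempty → ∃ m, IsMeet S X m

/-! ### general facts -/

lemma wlen_le {S : Set W} {l : List W} (h : ∀ s ∈ l, s ∈ S) : wlen S l.prod ≤ l.length :=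
  Nat.sInf_le ⟨l, h, rfl, rfl⟩

/-- lengths from a candidate length function -/
lemma wlen_eq {S : Set W} (f : W → ℕ) (h1 : f 1 = 0) (hs : ∀ s ∈ S, ∀ w, f (w * s) ≤ f w + 1)
    (hw : ∀ w, ∃ l : List W, (∀ s ∈ l, s ∈ S) ∧ l.prod = w ∧ l.length = f w) (w : W) :
    wlen S w = f w := by
  apply le_antisymm
  · obtain ⟨l, h2, rfl, h3⟩ := hw w
    rw [← h3]; exact wlen_le h2
  · obtain ⟨l0, h2, h3, h4⟩ := hw w
    obtain ⟨l, h5, h6, h7⟩ := Nat.sInf_mem (s := {n | ∃ l : List W, (∀ s ∈ l, s ∈ S) ∧ l.prod = w ∧
      l.length = n}) ⟨_, l0, h2, h3, rfl⟩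
    have key : ∀ l : List W, (∀ s ∈ l, s ∈ S) → f l.prod ≤ l.length := by
      intro l
      induction l using List.reverseRecOn with
      | nil => intro _; simp [h1]
      | append_singleton l s ih =>
        intro h
        rw [List.prod_append, List.prod_singleton, List.length_append, List.length_singleton]
        have := hs s (h s (by simp)) l.prod
        have := ih (fun t ht => h t (List.mem_append_left _ ht))
        omega
    have := key l h5
    rw [h6, h7] at this
    exact this

lemma wle_iff {S : Set W} (hw : ∀ w : W, ∃ l : List W, IsRed S l w) (u v : W) :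
    WLe S u v ↔ wlen S v = wlen S u + wlen S (u⁻¹ * v) := by
  constructor
  · rintro ⟨p, q, ⟨h1, h2, h3⟩, h4, h5, h6⟩
    rw [List.prod_append, h2] at h5
    have h7 : q.prod = u⁻¹ * v := by rw [← h5]; group
    have h8 : wlen S q.prod ≤ q.length := wlen_le fun s hs => h4 s (List.mem_append_right _ hs)
    rw [List.length_append] at h6
    obtain ⟨r, h9, h10, h11⟩ := hw (u⁻¹ * v)
    have h12 : wlen S (p ++ r).prod ≤ (p ++ r).length := by
      apply wlen_le
      intro s hs
      rcases List.mem_append.mp hs with hs | hs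
      · exact h1 s hs
      · exact h9 s hs
    rw [List.prod_append, h2, h10, mul_inv_cancel_left, List.length_append] at h12
    rw [h7] at h8
    omega
  · intro h
    obtain ⟨p, h1, h2, h3⟩ := hw u
    obtain ⟨q, h4, h5, h6⟩ := hw (u⁻¹ * v)
    refine ⟨p, q, ⟨h1, h2, h3⟩, ?_, ?_, ?_⟩
    · intro s hs
      rcases List.mem_append.mp hs with hs | hs
      · exact h1 s hs
      · exact h4 s hs
    · rw [List.prod_append, h2, h5, mul_inv_cancel_left]
    · rw [List.length_append, h3, h6, h]

end Pool.Agent.V1121.EM
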