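import Pool.Agent.V1121.EM.Defs

set_option autoImplicit false

namespace Pool.Agent.V1121.EM

/-- A group of order 16. -/
structure G where
  x : Bool
  p : Bool
  y : Bool
  q : Bool
deriving DecidableEq, Fintype

namespace G

instance : Mul G := ⟨fun u v =>
  ⟨xor (xor u.x v.x) (u.q && v.p), xor u.p v.p, xor (xor u.y v.y) (u.p && v.q), xor u.q v.q⟩⟩
instance : One G := ⟨⟨false, false, false, false⟩⟩
instance : Inv G := ⟨fun u => ⟨xor u.x (u.q && u.p), u.p, xor u.y (u.p && u.q), u.q⟩⟩

instance : Group G := Group.ofLeftAxioms (by decide) (by decide) (by decide)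

def a : G := ⟨true, true, false, false⟩
def b : G := ⟨false, true, false, false⟩
def c : G := ⟨false, false, true, true⟩
def d : G := ⟨false, false, false, true⟩

/-- the four coordinates -/
def bit (w : G) : Fin 4 → Bool := ![w.x, xor w.x w.p, w.y, xor w.y w.q]

/-- the number of nonzero coordinates -/
def wt (w : G) : ℕ := (bit w 0).toNat + (bit w 1).toNat + (bit w 2).toNat + (bit w 3).toNat

/-- the generating set -/
def S : Set G := {a, b, c, d}

/-- a word of minimal length -/
def word (w : G) : List G :=
  let A : List G := if bit w 0 then [a] else []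
  let B : List G := if bit w 1 then [b] else []
  let r := (A ++ B).prod⁻¹ * w
  let C : List G := if bit r 2 then [c] else []
  let D : List G := if bit r 3 then [d] else []
  A ++ B ++ C ++ D

lemma word_spec : ∀ w : G, (word w).prod = w ∧ (word w).length = wt w := by decide

lemma word_mem' : ∀ w : G, ∀ s ∈ word w, s = a ∨ s = b ∨ s = c ∨ s = d := by decide

lemma word_mem (w : G) : ∀ s ∈ word w, s ∈ S := word_mem' w

lemma wt_step : ∀ w : G, wt (w * a) ≤ wt w + 1 ∧ wt (w * b) ≤ wt w + 1 ∧ wt (w * c) ≤ wt w + 1 ∧
    wt (w * d) ≤ wt w + 1 := by decide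

lemma wlen_S (w : G) : wlen S w = wt w := by
  apply wlen_eq wt (by decide)
  · intro s hs w
    obtain ⟨h1, h2, h3, h4⟩ := wt_step w
    rcases hs with rfl | rfl | rfl | rfl
    · exact h1
    · exact h2
    · exact h3
    · exact h4
  · intro w
    exact ⟨word w, word_mem w, (word_spec w).1, (word_spec w).2⟩

lemma exists_red (w : G) : ∃ l : List G, IsRed S l w :=
  ⟨word w, word_mem w, (word_spec w).1, by rw [wlen_S, (word_spec w).2]⟩

lemma wle_dec : ∀ u v : G, (wt v = wt u + wt (u⁻¹ * v)) ↔ ∀ i, bit u i = true → bit v i = true := by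
  decide

lemma wle (u v : G) : WLe S u v ↔ ∀ i, bit u i = true → bit v i = true := by
  rw [wle_iff exists_red, wlen_S, wlen_S, wlen_S, wle_dec]

lemma exists_bits (f : Fin 4 → Bool) : ∃ w : G, ∀ i, bit w i = f i := by
  refine ⟨⟨f 0, xor (f 0) (f 1), f 2, xor (f 2) (f 3)⟩, ?_⟩
  intro i
  fin_cases i <;> simp [bit]

open Classical in
lemma exists_meet (X : Set G) : ∃ m, (∀ i, bit m i = true ↔ ∀ x ∈ X, bit x i = true) := by
  obtain ⟨m, hm⟩ := exists_bits (fun i => decide (∀ x ∈ X, bit x i = true))
  exact ⟨m, fun i => by rw [hm i]; simp⟩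

lemma isMeet_of {X : Set G} {m : G} (h : ∀ i, bit m i = true ↔ ∀ x ∈ X, bit x i = true) :
    IsMeet S X m := by
  constructor
  · intro x hx
    rw [wle]
    intro i hi
    exact (h i).mp hi x hx
  · intro y hy
    rw [wle]
    intro i hi
    rw [h i]
    intro x hx
    exact (wle y x).mp (hy x hx) i hi

lemma isJoin_of {X : Set G} {j : G} (h : ∀ i, bit j i = true ↔ ∃ x ∈ X, bit x i = true) :
    IsJoin S X j := by
  constructor
  · intro x hx
    rw [wle]
    intro i hi
    exact (h i).mpr ⟨x, hx, hi⟩
  · intro y hy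
    rw [wle]
    intro i hi
    obtain ⟨x, hx, hxi⟩ := (h i).mp hi
    exact (wle x y).mp (hy x hx) i hxi

/-- the sign character -/
def sgn : G →* ℤˣ where
  toFun w := (-1) ^ wt w
  map_one' := by decide
  map_mul' := by decide

lemma isEMIS : IsEMIS S where
  sys :=
    { finite := by
        rw [S]; exact Set.toFinite _
      invol := by
        intro s hs
        rcases hs with rfl | rfl | rfl | rfl <;> decide
      gen := by
        rw [eq_top_iff]
        intro w _
        rw [← (word_spec w).1]
        exact Subgroup.list_prod_mem _ fun s hs => Subgroup.subset_closure (word_mem w s hs) }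
  even := by
    refine ⟨sgn, ?_⟩
    intro s hs
    rcases hs with rfl | rfl | rfl | rfl <;> decide
  meet := by
    intro X _
    obtain ⟨m, hm⟩ := exists_meet X
    exact ⟨m, isMeet_of hm⟩

/-- a homomorphism which vanishes on `a` and `c` -/
def f : G →* Multiplicative (ZMod 2) where
  toFun w := Multiplicative.ofAdd (((xor (xor w.p w.q) (xor (xor w.x w.y) (w.p && w.q))).toNat : ℕ) : ZMod 2)
  map_one' := by decide
  map_mul' := by decide

lemma f_zero {w : G} (h : w ∈ Subgroup.closure ({a, c} : Set G)) : f w = 1 := by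
  have h1 : Subgroup.closure ({a, c} : Set G) ≤ f.ker := by
    rw [Subgroup.closure_le]
    intro s hs
    rcases hs with rfl | rfl
    · change f a = 1; decide
    · change f c = 1; decide
  exact h1 h

end G

end Pool.Agent.V1121.EM
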